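import Pool.Agent.Helper84.Era.Side

/-!
# MP_0430e4_lc: the erasure threshold and the rate of the best binary codes

Let `0 < δ < 1/2`.  We consider all binary codes with relative minimum distance at least `δ`, with
their best decoders, on all memoryless channels with binary input, finite output alphabet and
symmetric transition probabilities.  Which capacity is necessary for all these codes to be
reliable?  Let `κ₀(δ)` be the infimum of the capacities of the symmetric channels on which all
these codes are reliable.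

* (1) A law of zero and one for every symmetric channel `V`: for every `0 < e < 1` and every
  length, either all these codes have error probability at most `2 exp(-c n)` on the channel which
  consists of `V` and, in addition, of an erasure channel with erasure probability `e` (close to
  one), or one of them has error probability at least `1 - exp(-c n)` on `V` itself.
* (2) On each symmetric channel of capacity smaller than `κ₀(δ)` one of these codes has error
  probability at least `1 - exp(-c n)`, for infinitely many `n`.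
* (3) `κ₀(δ)` is the threshold of the erasure channel: if its capacity `1 - ε` is larger than
  `κ₀(δ)`, then all these codes have error probability at most `exp(-c n)`.  So the erasure channel
  is the best channel of its capacity for the class of all these codes.
* (4) `2 δ ln(1 / (1 - κ₀(δ))) ≤ R(δ) ≤ κ₀(δ) ≤ κ(δ)`, where `κ(δ)` is the threshold of the
  sufficient capacity, and `κ₀(δ) < 1 - H(J(δ))`.
* (5) `2 δ ln(H(δ) / (1 - κ₀(δ))) ≤ φ(R(δ) - (1 - H(δ)))`, and `κ₀(δ) = 1 - H(δ)` if and only if
  the bound of Gilbert and Varshamov is sharp, `R(δ) = 1 - H(δ)`.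
* (6) `R(δ) / κ₀(δ)` tends to `1` as `δ` tends to `1/2`, and
  `κ₀(1/2 - t) ≤ H(t²) / ((1 - 2 t) (1 - 2 t²))`.

The proof of (1): for a word `x` of a code `C` and the output `y` let `Q(x | y)` be the posterior
probability.  If a considerable part of the words has exponentially small posterior probability
with considerable probability, then by the blowing up lemma (in the form of Talagrand) and by
counting, the words of a subcode have small posterior probability with probability close to one,
and the subcode cannot be decoded.  Otherwise the list of the words which are as likely as the sent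
one is short, and by the distance of the code the additional erasure channel separates them.
The proof of (2) and (3): the equivocation of a code on a symmetric channel is, one letter after the
other, at least its equivocation on the erasure channel of the same capacity, and the confused
codes of (1) have a large equivocation.  The proof of (4) and (5): on a confused code two words of
the posterior distribution have distance at least `(δ - o(1)) n`, so by `h(p) ≥ 4 p (1 - p) ln 2`
the equivocation of the erasure channel has slope at least `2 δ n / ε` in `ε`; this is an area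
theorem.
-/

set_option autoImplicit false

open Filter Finset Topology

namespace Pool.Agent.Results.MP_0430e4_lc.ErasureThreshold

/-- `A(n,d)`: the largest size of a binary code of length `n` with minimum distance at least `d`. -/
noncomputable def A (n d : ℕ) : ℕ :=
  sSup {k | ∃ C : Finset (Fin n → Bool),
    (∀ x ∈ C, ∀ y ∈ C, x ≠ y → d ≤ hammingDist x y) ∧ C.card = k}

/-- The asymptotic rate `R(δ) = limsup (1/n) log₂ A(n, ⌈δ n⌉)`. -/
noncomputable def R (δ : ℝ) : ℝ :=
  limsup (fun n : ℕ => Real.logb 2 (A n ⌈δ * n⌉₊) / n) atTop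

/-- The binary entropy function `H₂(x) = - x log₂ x - (1 - x) log₂ (1 - x)`. -/
noncomputable def H (x : ℝ) : ℝ := -x * Real.logb 2 x - (1 - x) * Real.logb 2 (1 - x)

/-- `C` is a code with minimum distance at least `δ n`. -/
def IsCode (δ : ℝ) {n : ℕ} (C : Finset (Fin n → Bool)) : Prop :=
  ∀ x ∈ C, ∀ y ∈ C, x ≠ y → ⌈δ * n⌉₊ ≤ hammingDist x y

/-- A symmetric channel with binary input and output alphabet `Y`: `P b y` is the probability of
the output `y` for the input `b`, and the involution `σ` of the outputs exchanges the two inputs. -/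
structure Channel (Y : Type) [Fintype Y] where
  /-- the transition probabilities -/
  P : Bool → Y → ℝ
  nonneg : ∀ b y, 0 ≤ P b y
  sum_eq_one : ∀ b, ∑ y, P b y = 1
  /-- the involution -/
  σ : Y → Y
  invol : ∀ y, σ (σ y) = y
  symm : ∀ b y, P (!b) (σ y) = P b y

variable {Y : Type} [Fintype Y]

/-- The capacity in bits: the mutual information between a uniform input bit and the output (for a
symmetric channel the uniform input is the optimal one). -/
noncomputable def cap (V : Channel Y) : ℝ :=
  ∑ b, ∑ y, V.P b y / 2 * Real.logb 2 (V.P b y / ((V.P false y + V.P true y) / 2))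

/-- The binary erasure channel with erasure probability `ε`; the output `none` is the erasure. -/
noncomputable def bec (ε : ℝ) (h0 : 0 ≤ ε) (h1 : ε ≤ 1) : Channel (Option Bool) where
  P := fun b y => if y = none then ε else if y = some b then 1 - ε else 0
  nonneg := (Pool.Agent.Helper84.Era.bSym h0 h1).nonneg
  sum_eq_one := (Pool.Agent.Helper84.Era.bSym h0 h1).sum
  σ := Option.map not
  invol := (Pool.Agent.Helper84.Era.bSym h0 h1).inv
  symm := (Pool.Agent.Helper84.Era.bSym h0 h1).symm

lemma sym (V : Channel Y) : Pool.Agent.Helper84.Chan.Sym V.P V.σ :=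
  ⟨V.nonneg, V.sum_eq_one, V.invol, V.symm⟩

/-- The channel `V` with side information: the input is sent over `V` and, independently, over the
erasure channel with erasure probability `e`, and both outputs are received. -/
noncomputable def side (V : Channel Y) (e : ℝ) (h0 : 0 ≤ e) (h1 : e ≤ 1) :
    Channel (Y × Option Bool) where
  P := fun b w => V.P b w.1 * (bec e h0 h1).P b w.2
  nonneg := (Pool.Agent.Helper84.Era.sSym (sym V) h0 h1).nonneg
  sum_eq_one := (Pool.Agent.Helper84.Era.sSym (sym V) h0 h1).sum
  σ := fun w => (V.σ w.1, Option.map not w.2)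
  invol := (Pool.Agent.Helper84.Era.sSym (sym V) h0 h1).inv
  symm := (Pool.Agent.Helper84.Era.sSym (sym V) h0 h1).symm

/-- The error probability of the decoder `D` on the memoryless channel `V`: a random word `x` of
`C` is sent and `y` is received; the probability of `D(y) ≠ x`. -/
noncomputable def errorProb (V : Channel Y) {n : ℕ} (C : Finset (Fin n → Bool))
    (D : (Fin n → Y) → (Fin n → Bool)) : ℝ :=
  (∑ x ∈ C, ∑ y, if D y ≠ x then ∏ i, V.P (x i) (y i) else 0) / C.card

/-- The error probability of the code with its best decoder. -/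
noncomputable def minError (V : Channel Y) {n : ℕ} (C : Finset (Fin n → Bool)) : ℝ :=
  ⨅ D : (Fin n → Y) → (Fin n → Bool), errorProb V C D

/-- The largest error probability of a code of length `n` with minimum distance at least `δ n`. -/
noncomputable def worst (δ : ℝ) (V : Channel Y) (n : ℕ) : ℝ :=
  sSup {r : ℝ | ∃ C : Finset (Fin n → Bool), C.Nonempty ∧ IsCode δ C ∧ r = minError V C}

/-- The codes with minimum distance at least `δ n` are reliable on the channel `V`. -/
def Reliable (δ : ℝ) (V : Channel Y) : Prop := Tendsto (fun n => worst δ V n) atTop (𝓝 0)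

/-- The threshold of the necessary capacity: the infimum of the capacities of the reliable
symmetric channels. -/
noncomputable def κ₀ (δ : ℝ) : ℝ :=
  sInf {c : ℝ | ∃ (Y : Type) (_ : Fintype Y) (V : Channel Y), Reliable δ V ∧ c = cap V}

/-- The threshold of the sufficient capacity: the smallest number such that all symmetric channels
of larger capacity are reliable. -/
noncomputable def κ (δ : ℝ) : ℝ :=
  sInf {c : ℝ | 0 ≤ c ∧ ∀ (Y : Type) [Fintype Y] (V : Channel Y), c < cap V → Reliable δ V}

/-- The radius of Johnson. -/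
noncomputable def J (δ : ℝ) : ℝ := (1 - √(1 - 2 * δ)) / 2

/-- `φ(g) = g + ln ((1 - δ) / δ) √(g / (2 ln 2))`. -/
noncomputable def φ (δ g : ℝ) : ℝ := g + Real.log ((1 - δ) / δ) * √(g / (2 * Real.log 2))

/-! ### Comparison with the definitions of the helper files -/

open Pool.Agent.Helper84

lemma worst_eq (δ : ℝ) (V : Channel Y) (n : ℕ) : worst δ V n = Chan.worstC δ V.P n := rfl

lemma worst_bec (δ ε : ℝ) (h0 : 0 ≤ ε) (h1 : ε ≤ 1) (n : ℕ) :
    worst δ (bec ε h0 h1) n = Chan.worstC δ (Era.bP ε) n := rfl

lemma worst_side (δ : ℝ) (V : Channel Y) (e : ℝ) (h0 : 0 ≤ e) (h1 : e ≤ 1) (n : ℕ) :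
    worst δ (side V e h0 h1) n = Chan.worstC δ (Era.sP V.P e) n := rfl

lemma R_eq : R = Pool.Agent.Results.MP_0430e4_lc.ConstantWeightCriterion.R := rfl

lemma H_eq : H = Pool.Agent.Results.MP_0430e4_lc.ConstantWeightCriterion.H := rfl

lemma J_eq : J = Thresh.Jr := rfl

lemma φ_eq : φ = Pool.Agent.Helper89K9.GV.phi := rfl

lemma cap_log (V : Channel Y) : cap V * Real.log 2 = Chan.Cn V.P := by
  have hlog : Real.log 2 ≠ 0 := (Real.log_pos (by norm_num)).ne'
  unfold cap Chan.Cn Chan.wt
  rw [Finset.sum_mul]
  apply Finset.sum_congr rfl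
  intro b _
  rw [Finset.sum_mul]
  apply Finset.sum_congr rfl
  intro y _
  unfold Real.logb
  field_simp

lemma cap_bec (ε : ℝ) (h0 : 0 ≤ ε) (h1 : ε ≤ 1) : cap (bec ε h0 h1) = 1 - ε := by
  have hlog : Real.log 2 ≠ 0 := (Real.log_pos (by norm_num)).ne'
  have h := cap_log (bec ε h0 h1)
  have h2 : Chan.Cn (bec ε h0 h1).P = (1 - ε) * Real.log 2 := Era.Cn_bP h0 h1
  rw [h2] at h
  exact mul_right_cancel₀ hlog h

lemma bad {δ : ℝ} (h0 : 0 < δ) (h1 : δ < 1 / 2) (V : Channel Y) (hV : cap V < 1 - Era.es δ) :
    ∃ c : ℝ, 0 < c ∧ ∃ᶠ n : ℕ in atTop, 1 - Real.exp (-(c * n)) ≤ worst δ V n := by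
  have hlog : 0 < Real.log 2 := Real.log_pos (by norm_num)
  apply Era.bad_strong (sym V) h0 h1
  rw [← cap_log V]
  exact mul_lt_mul_of_pos_right hV hlog

lemma not_reliable {δ : ℝ} {V : Channel Y}
    (h : ∃ c : ℝ, 0 < c ∧ ∃ᶠ n : ℕ in atTop, 1 - Real.exp (-(c * n)) ≤ worst δ V n) :
    ¬ Reliable δ V := by
  intro hr
  obtain ⟨c, hc, h2⟩ := h
  have h3 : ∀ᶠ n : ℕ in atTop, worst δ V n < 1 / 2 := hr.eventually (gt_mem_nhds (by norm_num))
  have h4 : ∀ᶠ n : ℕ in atTop, Real.exp (-(c * n)) < 1 / 2 :=
    (Thresh.tendsto_exp hc).eventually (gt_mem_nhds (by norm_num))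
  obtain ⟨n, a1, a2, a3⟩ := (h2.and_eventually (h3.and h4)).exists
  linarith

/-- the threshold of the necessary capacity and the threshold of the erasure probability -/
lemma κ₀_eq {δ : ℝ} (h0 : 0 < δ) (h1 : δ < 1 / 2) : κ₀ δ = 1 - Era.es δ := by
  have hes := Era.es_pos h0 h1
  have hes1 := Era.es_lt_one h0 h1
  have hbdd : BddBelow {c : ℝ | ∃ (Y : Type) (_ : Fintype Y) (V : Channel Y),
      Reliable δ V ∧ c = cap V} := by
    refine ⟨1 - Era.es δ, ?_⟩
    rintro c ⟨Y, _, V, hV, rfl⟩
    by_contra hcon
    push Not at hcon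
    exact not_reliable (bad h0 h1 V hcon) hV
  have hmem : ∀ a : ℝ, 0 < a → a < Era.es δ → 1 - a ∈ {c : ℝ | ∃ (Y : Type) (_ : Fintype Y)
      (V : Channel Y), Reliable δ V ∧ c = cap V} := by
    intro a ha0 ha1
    refine ⟨Option Bool, inferInstance, bec a ha0.le (by linarith), ?_, (cap_bec _ _ _).symm⟩
    exact Era.tendsto_of_exp ha0.le (by linarith) (Era.below_es h0 ha0 ha1)
  apply le_antisymm
  · apply le_of_forall_gt_imp_ge_of_dense
    intro b hb
    obtain ⟨a, ha1, ha2⟩ := exists_between (max_lt hes (by linarith : 1 - b < Era.es δ))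
    have ha0 : 0 < a := (le_max_left _ _).trans_lt ha1
    have ha3 : 1 - b < a := (le_max_right _ _).trans_lt ha1
    have := csInf_le hbdd (hmem a ha0 ha2)
    exact this.trans (by linarith)
  · have hne : {c : ℝ | ∃ (Y : Type) (_ : Fintype Y) (V : Channel Y),
        Reliable δ V ∧ c = cap V}.Nonempty :=
      ⟨_, hmem (Era.es δ / 2) (by linarith) (by linarith)⟩
    apply le_csInf hne
    rintro c ⟨Y, _, V, hV, rfl⟩
    by_contra hcon
    push Not at hcon
    exact not_reliable (bad h0 h1 V hcon) hV

lemma κ₀_le {δ : ℝ} (h0 : 0 < δ) (h1 : δ < 1 / 2) : κ₀ δ ≤ κ δ := by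
  have hes := Era.es_pos h0 h1
  have hes1 := Era.es_lt_one h0 h1
  rw [κ₀_eq h0 h1]
  apply le_csInf
  · -- every channel has capacity at most one
    refine ⟨1, zero_le_one, fun Y _ V hV => ?_⟩
    exfalso
    have hlog : 0 < Real.log 2 := Real.log_pos (by norm_num)
    have h := Chan.Cn_eq (sym V)
    rw [← cap_log V] at h
    have h2 : 0 ≤ ∑ y, Chan.wt V.P y * Real.binEntropy (Chan.rt V.P y) :=
      Finset.sum_nonneg fun y _ => mul_nonneg (Chan.wt_nonneg (sym V) y)
        (Real.binEntropy_nonneg (Chan.rt_nonneg (sym V) y) (Chan.rt_le_one (sym V) y))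
    nlinarith
  · intro c hc
    by_contra hcon
    push Not at hcon
    -- an erasure channel whose capacity is between
    obtain ⟨a, ha1, ha2⟩ := exists_between (max_lt hcon (by linarith : (0 : ℝ) < 1 - Era.es δ))
    have ha0 : c < a := (le_max_left _ _).trans_lt ha1
    have ha3 : 0 < a := (le_max_right _ _).trans_lt ha1
    have g0 : 0 ≤ 1 - a := by linarith
    have g1 : 1 - a ≤ 1 := by linarith
    refine not_reliable (bad h0 h1 (bec (1 - a) g0 g1) ?_) (hc.2 _ (bec (1 - a) g0 g1) ?_)
    · rw [cap_bec]
      linarith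
    · rw [cap_bec]
      linarith

/-- **The erasure threshold.** -/
theorem result :
    (∀ δ : ℝ, 0 < δ → δ < 1 / 2 →
      -- (1) the law of zero and one for all symmetric channels, for each length
      (∀ (Y : Type) [Fintype Y] (V : Channel Y) (e : ℝ) (g0 : 0 < e) (g1 : e < 1),
        ∃ c : ℝ, 0 < c ∧ ∀ n : ℕ, worst δ (side V e g0.le g1.le) n ≤ 2 * Real.exp (-(c * n)) ∨
          1 - Real.exp (-(c * n)) ≤ worst δ V n) ∧
      -- (2) symmetric channels whose capacity is smaller than `κ₀(δ)`
      (∀ (Y : Type) [Fintype Y] (V : Channel Y), cap V < κ₀ δ →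
        ∃ c : ℝ, 0 < c ∧ ∃ᶠ n : ℕ in atTop, 1 - Real.exp (-(c * n)) ≤ worst δ V n) ∧
      -- (3) the erasure channel is the best one
      (∀ (ε : ℝ) (g0 : 0 ≤ ε) (g1 : ε ≤ 1), cap (bec ε g0 g1) = 1 - ε ∧
        (κ₀ δ < cap (bec ε g0 g1) → ∃ c : ℝ, 0 < c ∧
          ∀ᶠ n : ℕ in atTop, worst δ (bec ε g0 g1) n ≤ Real.exp (-(c * n)))) ∧
      -- (4) the rate of the best codes
      (2 * δ * Real.log (1 / (1 - κ₀ δ)) ≤ R δ ∧ R δ ≤ κ₀ δ ∧ κ₀ δ ≤ κ δ ∧
        κ₀ δ < 1 - H (J δ)) ∧
      -- (5) the bound of Gilbert and Varshamov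
      (2 * δ * Real.log (H δ / (1 - κ₀ δ)) ≤ φ δ (R δ - (1 - H δ)) ∧
        (κ₀ δ = 1 - H δ ↔ R δ = 1 - H δ))) ∧
    -- (6) the rate and the threshold near distance `1/2`
    Tendsto (fun δ => R δ / κ₀ δ) (𝓝[<] (1 / 2)) (𝓝 1) ∧
    (∀ t : ℝ, 0 < t → t < 1 / 2 →
      κ₀ (1 / 2 - t) ≤ H (t ^ 2) / ((1 - 2 * t) * (1 - 2 * t ^ 2))) := by
  refine ⟨fun δ h0 h1 => ?_, ?_, ?_⟩
  · have hk := κ₀_eq h0 h1
    have hes := Era.es_pos h0 h1
    have hsub : 1 - κ₀ δ = Era.es δ := by rw [hk]; ring
    refine ⟨fun Y _ V e g0 g1 => Era.side_zero_one (sym V) h0 g0 g1,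
      fun Y _ V hV => bad h0 h1 V (by rwa [← hk]), fun ε g0 g1 => ⟨cap_bec ε g0 g1, fun hε => ?_⟩,
      ⟨?_, ?_, κ₀_le h0 h1, ?_⟩, ?_, ?_⟩
    · rw [cap_bec, hk] at hε
      have hlt : ε < Era.es δ := by linarith
      rcases g0.eq_or_lt with h | h
      · -- the noiseless channel
        subst h
        exact ⟨1, one_pos, Eventually.of_forall fun n =>
          (Era.worst_zero δ n).trans (Real.exp_pos _).le⟩
      · exact Era.below_es h0 h hlt
    · rw [hsub, R_eq]
      exact Era.es_R h0 h1
    · rw [hk, R_eq]
      exact Era.R_le_es h0 h1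
    · rw [hk, H_eq, J_eq]
      have := Era.HJ_lt h0 h1
      linarith
    · rw [hsub, R_eq, H_eq, φ_eq]
      exact Era.es_phi h0 h1
    · rw [hk, R_eq, H_eq, ← Era.es_eq_iff h0 h1]
      constructor <;> intro h <;> linarith
  · have h := Era.es_ratio
    rw [← R_eq] at h
    refine h.congr' ?_
    filter_upwards [Ioo_mem_nhdsLT (by norm_num : (0 : ℝ) < 1 / 2)] with δ hδ
    rw [κ₀_eq hδ.1 hδ.2]
  · intro t ht0 ht1
    rw [κ₀_eq (by linarith) (by linarith), H_eq]
    exact Era.es_near ht0 ht1

end Pool.Agent.Results.MP_0430e4_lc.ErasureThreshold
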