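import Pool.Agent.Helper24.LD.Final

/-!
# Codes with sparse parity checks: linear, logarithmic and bounded distance

`wt x` is the Hamming weight; `Sparse w C`: the linear code `C` is the set of solutions of
linear equations with at most `w` nonzero coefficients each; `SparseBoth w c C`: `C` is the kernel
of a matrix with at most `w` nonzero entries in each row and at most `c` in each column
(`Pool.Agent.Helper24.LD.Defs`).
-/

set_option autoImplicit false

namespace Pool.Agent.Results.MP_0430e4_lc.SparseParityChecks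

open Pool.Agent.Helper24.LD

/-- linear codes of length `n` over `F` -/
abbrev Code (F : Type) [Field F] (n : ℕ) : Type := Submodule F (Fin n → F)

/-- the dimension of a code -/
noncomputable def dim {F : Type} [Field F] {n : ℕ} (C : Code F n) : ℕ := Module.finrank F C

/-- the minimum distance of the code is at least `d` -/
def DistGE {F : Type} [Field F] {n : ℕ} (C : Code F n) (d : ℝ) : Prop :=
  ∀ x ∈ C, x ≠ 0 → d ≤ wt x

/-- the code has a nonzero word of weight at most `d` -/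
def DistLE {F : Type} [Field F] {n : ℕ} (C : Code F n) (d : ℝ) : Prop :=
  ∃ x ∈ C, x ≠ 0 ∧ (wt x : ℝ) ≤ d

theorem result (w : ℕ) (hw : 3 ≤ w) :
    -- rate below `(w-2)/(w+1)`: linear distance
    (∀ R : ℝ, R < ((w : ℝ) - 2) / (w + 1) → ∃ δ : ℝ, 0 < δ ∧ ∃ n₀ : ℕ, ∀ n, n₀ ≤ n →
      ∀ (F : Type) [Field F], ∃ C : Code F n, SparseBoth w 3 C ∧ R * n ≤ dim C ∧
        DistGE C (δ * n)) ∧
    -- rate above `(w-2)/(w+1)`: at most logarithmic distance
    (∀ ε : ℝ, 0 < ε → ∃ K : ℝ, ∀ n : ℕ, 2 ≤ n → ∀ (F : Type) [Field F] (C : Code F n),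
      Sparse w C → (((w : ℝ) - 2) / (w + 1) + ε) * n ≤ dim C → DistLE C (K * Real.log n)) ∧
    -- rate below `(w-2)/w`: logarithmic distance
    (∀ R : ℝ, R < ((w : ℝ) - 2) / w → ∃ δ : ℝ, 0 < δ ∧ ∃ n₀ : ℕ, ∀ n, n₀ ≤ n →
      ∀ (F : Type) [Field F], ∃ C : Code F n, SparseBoth w 2 C ∧ R * n ≤ dim C ∧
        DistGE C (δ * Real.log n)) ∧
    -- rate above `(w-2)/w`: bounded distance
    (∀ ε : ℝ, 0 < ε → ∃ K : ℕ, ∀ n : ℕ, 1 ≤ n → ∀ (F : Type) [Field F] (C : Code F n),
      Sparse w C → (((w : ℝ) - 2) / w + ε) * n ≤ dim C → DistLE C K) := by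
  refine ⟨fun R hR => part1 w hw R hR, fun ε hε => part2 w hw ε hε, fun R hR => part3 w hw R hR,
    fun ε hε => ?_⟩
  obtain ⟨K, hK⟩ := part4 w hw ε hε
  refine ⟨K, fun n hn F _ C hC hd => ?_⟩
  obtain ⟨x, hx, hx0, hxw⟩ := hK n hn F C hC hd
  exact ⟨x, hx, hx0, by exact_mod_cast hxw⟩

end Pool.Agent.Results.MP_0430e4_lc.SparseParityChecks
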