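import Pool.Agent.Helper84.Chan.Conv
import Pool.Agent.Helper84.Thresh.Final

/-!
# MP_0430e4_lc: the universal threshold of the capacity and the rate of the best binary codes

Let `0 < δ < 1/2`.  We consider all binary codes with relative minimum distance at least `δ`, with
their best decoders, on all memoryless channels with binary input, finite output alphabet and
symmetric transition probabilities, and ask which capacity guarantees that all these codes are
reliable.

* (1) There is a universal threshold `κ(δ)`: on each symmetric channel of capacity larger than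
  `κ(δ)` all these codes of length `n` have error probability at most `exp(-c n)`.
* (2) It is sharp: on each binary symmetric channel of capacity smaller than `κ(δ)` one of these
  codes has error probability at least `1 - exp(-c n)`, for infinitely many `n`.  So the binary
  symmetric channel is the worst channel of its capacity.
* (3) On each symmetric channel of capacity smaller than `R(δ)` one of these codes has error
  probability at least `1 - exp(-c n)`, for infinitely many `n`.
* (4) `1 - H(δ) ≤ R(δ) ≤ κ(δ) < 1 - H(J(δ))` and `λ(δ, t) κ(δ) ≤ R(δ)` for the `t` in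
  `(J(δ), δ]` with `κ(δ) = 1 - H(t)`.
* (5) The bound of Gilbert and Varshamov is sharp, `R(δ) = 1 - H(δ)`, if and only if all symmetric
  channels of capacity larger than `1 - H(δ)` are reliable for all these codes, and this holds as
  soon as there are symmetric channels which are reliable for all these codes and whose capacities
  have an infimum of at most `1 - H(δ)`.
* (6) `R(δ) / κ(δ)` tends to `1` as `δ` tends to `1/2`: then by (1) and (3) the rate of the best
  codes is, up to a factor `1 + o(1)`, the threshold of the capacity for every symmetric channel.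

The proof: a form of the inequality of Mrs. Gerber for two masses gives, for a code and for one
letter, that the entropy of the received word is a concave function of the entropy of the noise of
that letter.  A symmetric channel is a mixture of binary symmetric channels, and so, one letter
after the other, the equivocation of a code on a symmetric channel is at most its equivocation on
the binary symmetric channel of the same capacity.  The latter is exponentially small below the
threshold of the crossover probability, and the former bounds the error probability.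
-/

set_option autoImplicit false

open Filter Finset Topology

namespace Pool.Agent.Results.MP_0430e4_lc.SymmetricChannels

/-- `A(n,d)`: the largest size of a binary code of length `n` with minimum distance at least `d`. -/
noncomputable def A (n d : ℕ) : ℕ :=
  sSup {k | ∃ C : Finset (Fin n → Bool),
    (∀ x ∈ C, ∀ y ∈ C, x ≠ y → d ≤ hammingDist x y) ∧ C.card = k}

/-- The asymptotic rate `R(δ) = limsup (1/n) log₂ A(n, ⌈δ n⌉)`. -/
noncomputable def R (δ : ℝ) : ℝ :=
  limsup (fun n : ℕ => Real.logb 2 (A n ⌈δ * n⌉₊) / n) atTop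

/-- The binary entropy function `H₂(x) = - x log₂ x - (1 - x) log₂ (1 - x)`. -/
noncomputable def H (x : ℝ) : ℝ := -x * Real.logb 2 x - (1 - x) * Real.logb 2 (1 - x)

/-- `C` is a code with minimum distance at least `δ n`. -/
def IsCode (δ : ℝ) {n : ℕ} (C : Finset (Fin n → Bool)) : Prop :=
  ∀ x ∈ C, ∀ y ∈ C, x ≠ y → ⌈δ * n⌉₊ ≤ hammingDist x y

/-- A symmetric channel with binary input and output alphabet `Y`: `P b y` is the probability of
the output `y` for the input `b`, and the involution `σ` of the outputs exchanges the two inputs. -/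
structure Channel (Y : Type) [Fintype Y] where
  /-- the transition probabilities -/
  P : Bool → Y → ℝ
  nonneg : ∀ b y, 0 ≤ P b y
  sum_eq_one : ∀ b, ∑ y, P b y = 1
  /-- the involution -/
  σ : Y → Y
  invol : ∀ y, σ (σ y) = y
  symm : ∀ b y, P (!b) (σ y) = P b y

variable {Y : Type} [Fintype Y]

/-- The capacity in bits: the mutual information between a uniform input bit and the output (for a
symmetric channel the uniform input is the optimal one). -/
noncomputable def cap (V : Channel Y) : ℝ :=
  ∑ b, ∑ y, V.P b y / 2 * Real.logb 2 (V.P b y / ((V.P false y + V.P true y) / 2))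

/-- The binary symmetric channel with crossover probability `p`. -/
noncomputable def bsc (p : ℝ) (h0 : 0 ≤ p) (h1 : p ≤ 1 / 2) : Channel Bool where
  P := fun b y => if b ≠ y then p else 1 - p
  nonneg := fun b y => by split_ifs <;> linarith
  sum_eq_one := fun b => by cases b <;> simp
  σ := fun y => !y
  invol := fun y => by simp
  symm := fun b y => by cases b <;> cases y <;> simp

/-- The error probability of the decoder `D` on the memoryless channel `V`: a random word `x` of
`C` is sent and `y` is received; the probability of `D(y) ≠ x`. -/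
noncomputable def errorProb (V : Channel Y) {n : ℕ} (C : Finset (Fin n → Bool))
    (D : (Fin n → Y) → (Fin n → Bool)) : ℝ :=
  (∑ x ∈ C, ∑ y, if D y ≠ x then ∏ i, V.P (x i) (y i) else 0) / C.card

/-- The error probability of the code with its best decoder. -/
noncomputable def minError (V : Channel Y) {n : ℕ} (C : Finset (Fin n → Bool)) : ℝ :=
  ⨅ D : (Fin n → Y) → (Fin n → Bool), errorProb V C D

/-- The largest error probability of a code of length `n` with minimum distance at least `δ n`. -/
noncomputable def worst (δ : ℝ) (V : Channel Y) (n : ℕ) : ℝ :=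
  sSup {r : ℝ | ∃ C : Finset (Fin n → Bool), C.Nonempty ∧ IsCode δ C ∧ r = minError V C}

/-- The codes with minimum distance at least `δ n` are reliable on the channel `V`. -/
def Reliable (δ : ℝ) (V : Channel Y) : Prop := Tendsto (fun n => worst δ V n) atTop (𝓝 0)

/-- The universal threshold: the smallest number such that all symmetric channels of larger
capacity are reliable. -/
noncomputable def κ (δ : ℝ) : ℝ :=
  sInf {c : ℝ | 0 ≤ c ∧ ∀ (Y : Type) [Fintype Y] (V : Channel Y), c < cap V → Reliable δ V}

/-- The radius of Johnson. -/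
noncomputable def J (δ : ℝ) : ℝ := (1 - √(1 - 2 * δ)) / 2

/-- `λ(δ, p) = 4 δ p (1 - p) / (2 p (1 - p) - δ (1 - 2 p)²)`. -/
noncomputable def lam (δ p : ℝ) : ℝ :=
  4 * δ * p * (1 - p) / (2 * p * (1 - p) - δ * (1 - 2 * p) ^ 2)

/-! ### Comparison with the definitions of the helper files -/

open Pool.Agent.Helper84

lemma sym (V : Channel Y) : Chan.Sym V.P V.σ := ⟨V.nonneg, V.sum_eq_one, V.invol, V.symm⟩

lemma worst_eq (δ : ℝ) (V : Channel Y) (n : ℕ) : worst δ V n = Chan.worstC δ V.P n := rfl

lemma R_eq : R = Pool.Agent.Results.MP_0430e4_lc.ConstantWeightCriterion.R := rfl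

lemma H_eq : H = Pool.Agent.Results.MP_0430e4_lc.ConstantWeightCriterion.H := rfl

lemma J_eq : J = Thresh.Jr := rfl

lemma lam_eq : lam = Thresh.lam := rfl

lemma cap_log (V : Channel Y) : cap V * Real.log 2 = Chan.Cn V.P := by
  have hlog : Real.log 2 ≠ 0 := (Real.log_pos (by norm_num)).ne'
  unfold cap Chan.Cn Chan.wt
  rw [Finset.sum_mul]
  apply Finset.sum_congr rfl
  intro b _
  rw [Finset.sum_mul]
  apply Finset.sum_congr rfl
  intro y _
  unfold Real.logb
  field_simp

/-- the mean entropy of the noise -/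
lemma cap_eq (V : Channel Y) :
    ∑ y, Chan.wt V.P y * Real.binEntropy (Chan.rt V.P y) = (1 - cap V) * Real.log 2 := by
  have h := Chan.Cn_eq (sym V)
  rw [← cap_log V] at h
  linarith

lemma cap_le_one (V : Channel Y) : cap V ≤ 1 := by
  have hlog : 0 < Real.log 2 := Real.log_pos (by norm_num)
  have h := cap_eq V
  have h2 : 0 ≤ ∑ y, Chan.wt V.P y * Real.binEntropy (Chan.rt V.P y) :=
    Finset.sum_nonneg fun y _ => mul_nonneg (Chan.wt_nonneg (sym V) y)
      (Real.binEntropy_nonneg (Chan.rt_nonneg (sym V) y) (Chan.rt_le_one (sym V) y))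
  rw [h] at h2
  have := nonneg_of_mul_nonneg_left h2 hlog
  linarith

lemma cap_bsc (p : ℝ) (h0 : 0 ≤ p) (h1 : p ≤ 1 / 2) : cap (bsc p h0 h1) = 1 - H p := by
  have hlog : 0 < Real.log 2 := Real.log_pos (by norm_num)
  have h := cap_eq (bsc p h0 h1)
  have e1 : ∀ y, Chan.wt (bsc p h0 h1).P y = 1 / 2 := by
    intro y
    unfold Chan.wt bsc
    cases y <;> simp
  have e2 : ∀ y, Real.binEntropy (Chan.rt (bsc p h0 h1).P y) = Real.binEntropy p := by
    intro y
    unfold Chan.rt bsc
    cases y <;> simp [Real.binEntropy_one_sub]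
  simp_rw [e1, e2] at h
  rw [Fintype.sum_bool] at h
  have h2 := Thresh.H_log p
  rw [H_eq]
  have h3 : (1 - cap (bsc p h0 h1)) * Real.log 2 =
      Pool.Agent.Results.MP_0430e4_lc.ConstantWeightCriterion.H p * Real.log 2 := by
    rw [h2, ← h]
    ring
  have h4 := mul_right_cancel₀ hlog.ne' h3
  linarith

lemma worst_bsc (δ p : ℝ) (h0 : 0 ≤ p) (h1 : p ≤ 1 / 2) (n : ℕ) :
    worst δ (bsc p h0 h1) n = Thresh.worst δ p n := rfl

/-- channels whose capacity is larger than that of the threshold -/
lemma good {δ : ℝ} (h0 : 0 < δ) (h1 : δ < 1 / 2) (V : Channel Y)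
    (hV : 1 - H (Thresh.th δ) < cap V) :
    ∃ c : ℝ, 0 < c ∧ ∀ᶠ n : ℕ in atTop, worst δ V n ≤ Real.exp (-(c * n)) := by
  have hlog : 0 < Real.log 2 := Real.log_pos (by norm_num)
  have ht := Thresh.th_pos h0 h1
  have hc : Tendsto (fun p => H p) (𝓝[<] (Thresh.th δ)) (𝓝 (H (Thresh.th δ))) :=
    (Pool.Agent.Results.MP_0430e4_lc.ConstantWeightCriterion.H_cont.tendsto _).mono_left
      nhdsWithin_le_nhds
  have h2 : ∀ᶠ p in 𝓝[<] (Thresh.th δ), 1 - cap V < H p :=
    hc.eventually (lt_mem_nhds (by linarith))
  obtain ⟨p, hp1, hp2⟩ := (h2.and (Ioo_mem_nhdsLT ht)).exists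
  apply Chan.small (sym V) h0 hp2.1 hp2.2
  rw [cap_eq, ← Thresh.H_log]
  exact mul_le_mul_of_nonneg_right hp1.le hlog.le

lemma reliable_of_exp {δ : ℝ} {V : Channel Y}
    (h : ∃ c : ℝ, 0 < c ∧ ∀ᶠ n : ℕ in atTop, worst δ V n ≤ Real.exp (-(c * n))) :
    Reliable δ V := by
  obtain ⟨c, hc, h2⟩ := h
  exact tendsto_of_tendsto_of_tendsto_of_le_of_le' tendsto_const_nhds (Thresh.tendsto_exp hc)
    (Eventually.of_forall fun n => Chan.worstC_nonneg (sym V) δ n) h2

lemma not_reliable {δ : ℝ} {V : Channel Y}
    (h : ∃ c : ℝ, 0 < c ∧ ∃ᶠ n : ℕ in atTop, 1 - Real.exp (-(c * n)) ≤ worst δ V n) :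
    ¬ Reliable δ V := by
  intro hr
  obtain ⟨c, hc, h2⟩ := h
  have h3 : ∀ᶠ n : ℕ in atTop, worst δ V n < 1 / 2 := hr.eventually (gt_mem_nhds (by norm_num))
  have h4 : ∀ᶠ n : ℕ in atTop, Real.exp (-(c * n)) < 1 / 2 :=
    (Thresh.tendsto_exp hc).eventually (gt_mem_nhds (by norm_num))
  obtain ⟨n, a1, a2, a3⟩ := (h2.and_eventually (h3.and h4)).exists
  linarith

lemma bsc_bad {δ p : ℝ} (h0 : 0 < δ) (hp : Thresh.th δ < p) (hp2 : p < 1 / 2) (g0 : 0 ≤ p)
    (g1 : p ≤ 1 / 2) :
    ∃ c : ℝ, 0 < c ∧ ∃ᶠ n : ℕ in atTop, 1 - Real.exp (-(c * n)) ≤ worst δ (bsc p g0 g1) n :=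
  Thresh.above h0 hp hp2

/-- the universal threshold and the threshold of the crossover probability -/
lemma κ_eq {δ : ℝ} (h0 : 0 < δ) (h1 : δ < 1 / 2) : κ δ = 1 - H (Thresh.th δ) := by
  have ht := Thresh.th_pos h0 h1
  have ht2 := Thresh.th_lt_half h0 h1
  have hH : H (Thresh.th δ) < 1 := by
    have := Thresh.H_lt ht.le ht2 le_rfl
    rw [Thresh.H_half] at this
    exact this
  apply le_antisymm
  · apply csInf_le ⟨0, fun c hc => hc.1⟩
    exact ⟨by linarith, fun Y _ V hV => reliable_of_exp (good h0 h1 V hV)⟩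
  · have hne : {c : ℝ | 0 ≤ c ∧
        ∀ (Y : Type) [Fintype Y] (V : Channel Y), c < cap V → Reliable δ V}.Nonempty :=
      ⟨1, zero_le_one, fun Y _ V hV => absurd hV (not_lt.2 (cap_le_one V))⟩
    apply le_csInf hne
    intro c hc
    by_contra hcon
    push Not at hcon
    have hcont : Tendsto (fun p => H p) (𝓝[>] (Thresh.th δ)) (𝓝 (H (Thresh.th δ))) :=
      (Pool.Agent.Results.MP_0430e4_lc.ConstantWeightCriterion.H_cont.tendsto _).mono_left
        nhdsWithin_le_nhds
    have h2 : ∀ᶠ p in 𝓝[>] (Thresh.th δ), H p < 1 - c :=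
      hcont.eventually (gt_mem_nhds (by linarith))
    obtain ⟨p, hp1, hp2⟩ := (h2.and (Ioo_mem_nhdsGT ht2)).exists
    have g0 : 0 ≤ p := by linarith [hp2.1]
    have g1 : p ≤ 1 / 2 := by linarith [hp2.2]
    refine not_reliable (bsc_bad h0 hp2.1 hp2.2 g0 g1) (hc.2 Bool (bsc p g0 g1) ?_)
    rw [cap_bsc]
    linarith

/-- **The universal threshold of the capacity.** -/
theorem result :
    (∀ δ : ℝ, 0 < δ → δ < 1 / 2 →
      -- (1) all symmetric channels whose capacity is larger than `κ(δ)` are reliable
      (∀ (Y : Type) [Fintype Y] (V : Channel Y), κ δ < cap V →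
        ∃ c : ℝ, 0 < c ∧ ∀ᶠ n : ℕ in atTop, worst δ V n ≤ Real.exp (-(c * n))) ∧
      -- (2) the binary symmetric channel is the worst one
      (∀ (p : ℝ) (h0 : 0 ≤ p) (h1 : p ≤ 1 / 2), cap (bsc p h0 h1) = 1 - H p ∧
        (cap (bsc p h0 h1) < κ δ → ∃ c : ℝ, 0 < c ∧
          ∃ᶠ n : ℕ in atTop, 1 - Real.exp (-(c * n)) ≤ worst δ (bsc p h0 h1) n)) ∧
      -- (3) symmetric channels whose capacity is smaller than `R(δ)`
      (∀ (Y : Type) [Fintype Y] (V : Channel Y), cap V < R δ →
        ∃ c : ℝ, 0 < c ∧ ∃ᶠ n : ℕ in atTop, 1 - Real.exp (-(c * n)) ≤ worst δ V n) ∧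
      -- (4) bounds
      (1 - H δ ≤ R δ ∧ R δ ≤ κ δ ∧ κ δ < 1 - H (J δ) ∧
        ∃ t : ℝ, J δ < t ∧ t ≤ δ ∧ κ δ = 1 - H t ∧ lam δ t * κ δ ≤ R δ) ∧
      -- (5) the bound of Gilbert and Varshamov
      (R δ = 1 - H δ ↔
        ∀ (Y : Type) [Fintype Y] (V : Channel Y), 1 - H δ < cap V → Reliable δ V) ∧
      (R δ = 1 - H δ ↔
        ∀ c : ℝ, 1 - H δ < c →
          ∃ (Y : Type) (_ : Fintype Y) (V : Channel Y), cap V < c ∧ Reliable δ V)) ∧
    -- (6) the rate near distance `1/2`
    Tendsto (fun δ => R δ / κ δ) (𝓝[<] (1 / 2)) (𝓝 1) := by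
  have hlog : 0 < Real.log 2 := Real.log_pos (by norm_num)
  -- the strong converse
  have hconv : ∀ (δ : ℝ) (Y : Type) [Fintype Y] (V : Channel Y), cap V < R δ →
      ∃ c : ℝ, 0 < c ∧ ∃ᶠ n : ℕ in atTop, 1 - Real.exp (-(c * n)) ≤ worst δ V n := by
    intro δ Y _ V hV
    apply Chan.converse (sym V)
    rw [← cap_log V]
    exact mul_lt_mul_of_pos_right hV hlog
  refine ⟨fun δ h0 h1 => ?_, ?_⟩
  · have ht := Thresh.th_pos h0 h1
    have ht2 := Thresh.th_lt_half h0 h1
    have hk := κ_eq h0 h1
    have hJ := Thresh.Jr_lt_th h0 h1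
    have htl := Thresh.th_le h0 h1
    have hR := Thresh.R_two h0 h1
    have hgv := Thresh.gv h0 h1
    have hiff := Thresh.th_eq_iff h0 h1
    rw [← R_eq, ← H_eq] at hR hgv hiff
    have hthe : κ δ = 1 - H δ → Thresh.th δ = δ := by
      intro h
      by_contra hne
      have h2 := Thresh.H_lt ht.le (lt_of_le_of_ne htl hne) h1.le
      rw [← H_eq] at h2
      linarith
    refine ⟨fun Y _ V hV => good h0 h1 V (by rwa [← hk]), fun p g0 g1 => ⟨cap_bsc p g0 g1, ?_⟩,
      fun Y _ V hV => hconv δ Y V hV,
      ⟨hgv, by rw [hk]; exact hR.2, ?_, Thresh.th δ, hJ, htl, hk, by rw [hk]; exact hR.1⟩,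
      ⟨?_, ?_⟩, ⟨?_, ?_⟩⟩
    · intro hp
      rcases g1.eq_or_lt with h | h
      · apply hconv
        refine lt_of_lt_of_le ?_ hgv
        rw [cap_bsc, h]
        have h2 := Thresh.H_lt h0.le h1 le_rfl
        rw [← H_eq] at h2
        linarith
      · apply bsc_bad h0 _ h
        by_contra hcon
        push Not at hcon
        rw [cap_bsc, hk] at hp
        rcases hcon.eq_or_lt with h2 | h2
        · rw [h2] at hp
          exact lt_irrefl _ hp
        · have h3 := Thresh.H_lt g0 h2 ht2.le
          rw [← H_eq] at h3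
          linarith
    · rw [hk]
      have h2 := Thresh.H_lt (Thresh.Jr_pos h0).le hJ ht2.le
      rw [← H_eq, ← J_eq] at h2
      linarith
    · intro h Y _ V hV
      apply reliable_of_exp
      apply good h0 h1 V
      rwa [hiff.2 h]
    · intro h
      apply hiff.1
      apply hthe
      apply le_antisymm
      · apply csInf_le ⟨0, fun c hc => hc.1⟩
        refine ⟨?_, fun Y _ V hV => h Y V hV⟩
        have h2 := Thresh.H_lt h0.le h1 le_rfl
        rw [Thresh.H_half, ← H_eq] at h2
        linarith
      · rw [hk]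
        have h2 := Thresh.H_mono ht htl h1.le
        rw [← H_eq] at h2
        linarith
    · intro h c hc
      have hcont : Tendsto (fun p => H p) (𝓝[<] δ) (𝓝 (H δ)) :=
        (Pool.Agent.Results.MP_0430e4_lc.ConstantWeightCriterion.H_cont.tendsto _).mono_left
          nhdsWithin_le_nhds
      have h2 : ∀ᶠ p in 𝓝[<] δ, 1 - c < H p := hcont.eventually (lt_mem_nhds (by linarith))
      obtain ⟨p, hp1, hp2⟩ := (h2.and (Ioo_mem_nhdsLT h0)).exists
      refine ⟨Bool, inferInstance, bsc p hp2.1.le (by linarith [hp2.2]), ?_, ?_⟩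
      · rw [cap_bsc]
        linarith
      · apply reliable_of_exp
        apply good h0 h1
        rw [cap_bsc, hiff.2 h]
        have h3 := Thresh.H_lt hp2.1.le hp2.2 h1.le
        rw [← H_eq] at h3
        linarith
    · intro h
      apply le_antisymm _ hgv
      apply le_of_forall_gt_imp_ge_of_dense
      intro c hc
      obtain ⟨Y, _, V, hV1, hV2⟩ := h c hc
      by_contra hcon
      push Not at hcon
      exact not_reliable (hconv δ Y V (hV1.trans hcon)) hV2
  · have h := Thresh.ratio_tendsto
    rw [← R_eq, ← H_eq] at h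
    refine h.congr' ?_
    filter_upwards [Ioo_mem_nhdsLT (by norm_num : (0 : ℝ) < 1 / 2)] with δ hδ
    rw [κ_eq hδ.1 hδ.2]

end Pool.Agent.Results.MP_0430e4_lc.SymmetricChannels
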