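import Pool.Agent.Helper84.Thresh.Final

/-!
# MP_0430e4_lc: the universal decoding threshold and the rate of the best binary codes

Let `0 < δ < 1/2`.  We consider all binary codes with relative minimum distance at least `δ` on
binary symmetric channels, each code with its best decoder, and compare the rate `R(δ)` of the
largest of them with their decoding threshold.

* (1), (2) There is a threshold `θ(δ)` with a law of zero and one: if the crossover probability `p`
  of the channel is smaller than `θ(δ)`, then all these codes of length `n` have error probability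
  at most `exp(-c n)`; if `p > θ(δ)`, then for infinitely many `n` one of them has error
  probability at least `1 - exp(-c n)`.
* (3) `J(δ) < θ(δ) ≤ δ`, where `J(δ)` is the radius of Johnson.
* (4) Let `E(δ, p)` be the rate of the largest equivocation (the conditional entropy of the sent
  word given the received word) of these codes.  It vanishes for `p ≤ θ(δ)`, and from there to
  `E(δ, 1/2) = R(δ)` its slope, with respect to `H(p)`, lies between an explicit `λ(δ, p)` and `1`.
* (5) Hence `λ(δ, θ(δ)) (1 - H(θ(δ))) ≤ R(δ) ≤ 1 - H(θ(δ))`.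
* (6) `θ(δ) = δ` if and only if the bound of Gilbert and Varshamov is sharp, `R(δ) = 1 - H(δ)`,
  with an explicit lower bound for the excess `R(δ) - (1 - H(δ))` in terms of `H(δ) - H(θ(δ))`.
* (7) `R(δ) / (1 - H(θ(δ)))` tends to `1` as `δ` tends to `1/2`.
* (8) `1/2 - θ(1/2 - ε) ≤ (1 + o(1)) ε √(ln(1/ε))` as `ε` tends to zero.

The proof of (1): let `Λ_p` be the likelihood ratio of all other words and of the sent word `x`.
A coupling of two channels with `p < q` gives
`E_q ln Λ_q ≥ E_p min(0, ln Λ_p) + c n`, and these functions are concentrated by the inequality of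
McDiarmid.  So each word of each code has error probability at most `exp(-c n)` at `p` or at least
`1 - exp(-c n)` at `q` (for a decoder which draws from the posterior distribution).  A code with
considerable error probability at `p` contains a code all of whose words have considerable error
probability, and all of these words are confused at `q`.  The proof of (4): for such codes two words
drawn from the posterior distribution have distance at least `(δ - o(1)) n`, so the posterior
distributions of the letters are not too concentrated, and a strengthening of the tensorisation of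
the entropy bounds the growth of the entropy of the received word from above.
-/

set_option autoImplicit false

open Filter Finset Topology

namespace Pool.Agent.Results.MP_0430e4_lc.UniversalThreshold

/-- `A(n,d)`: the largest size of a binary code of length `n` with minimum distance at least `d`. -/
noncomputable def A (n d : ℕ) : ℕ :=
  sSup {k | ∃ C : Finset (Fin n → Bool),
    (∀ x ∈ C, ∀ y ∈ C, x ≠ y → d ≤ hammingDist x y) ∧ C.card = k}

/-- The asymptotic rate `R(δ) = limsup (1/n) log₂ A(n, ⌈δ n⌉)`. -/
noncomputable def R (δ : ℝ) : ℝ :=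
  limsup (fun n : ℕ => Real.logb 2 (A n ⌈δ * n⌉₊) / n) atTop

/-- The binary entropy function `H₂(x) = - x log₂ x - (1 - x) log₂ (1 - x)`. -/
noncomputable def H (x : ℝ) : ℝ := -x * Real.logb 2 x - (1 - x) * Real.logb 2 (1 - x)

/-- `C` is a code with minimum distance at least `δ n`. -/
def IsCode (δ : ℝ) {n : ℕ} (C : Finset (Fin n → Bool)) : Prop :=
  ∀ x ∈ C, ∀ y ∈ C, x ≠ y → ⌈δ * n⌉₊ ≤ hammingDist x y

/-- The probability that the binary symmetric channel with crossover probability `p` changes the
word `x` into the word `y`. -/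
noncomputable def W (p : ℝ) {n : ℕ} (x y : Fin n → Bool) : ℝ :=
  p ^ hammingDist x y * (1 - p) ^ (n - hammingDist x y)

/-- The error probability of the decoder `D`: a random word `x` of `C` is sent and `y` is received;
the probability of `D(y) ≠ x`. -/
noncomputable def errorProb (p : ℝ) {n : ℕ} (C : Finset (Fin n → Bool))
    (D : (Fin n → Bool) → (Fin n → Bool)) : ℝ :=
  (∑ x ∈ C, ∑ y, if D y ≠ x then W p x y else 0) / C.card

/-- The error probability of the code with its best decoder. -/
noncomputable def minError (p : ℝ) {n : ℕ} (C : Finset (Fin n → Bool)) : ℝ :=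
  ⨅ D : (Fin n → Bool) → (Fin n → Bool), errorProb p C D

/-- The largest error probability of a code of length `n` with minimum distance at least `δ n`. -/
noncomputable def worst (δ p : ℝ) (n : ℕ) : ℝ :=
  sSup {r : ℝ | ∃ C : Finset (Fin n → Bool), C.Nonempty ∧ IsCode δ C ∧ r = minError p C}

/-- The threshold: the supremum of the crossover probabilities for which all codes with minimum
distance at least `δ n` have small error probability. -/
noncomputable def θ (δ : ℝ) : ℝ :=
  sSup {p : ℝ | 0 < p ∧ p < 1 / 2 ∧ Tendsto (fun n => worst δ p n) atTop (𝓝 0)}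

/-- The radius of Johnson. -/
noncomputable def J (δ : ℝ) : ℝ := (1 - √(1 - 2 * δ)) / 2

/-- The equivocation of the code in bits: a random word `X` of `C` is sent and `Y` is received; the
conditional entropy of `X` given `Y`. -/
noncomputable def equivocation (p : ℝ) {n : ℕ} (C : Finset (Fin n → Bool)) : ℝ :=
  (∑ x ∈ C, ∑ y, W p x y * Real.logb 2 ((∑ z ∈ C, W p z y) / W p x y)) / C.card

/-- The largest equivocation of a code of length `n` with minimum distance at least `δ n`. -/
noncomputable def maxEquivocation (δ p : ℝ) (n : ℕ) : ℝ :=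
  sSup {r : ℝ | ∃ C : Finset (Fin n → Bool), C.Nonempty ∧ IsCode δ C ∧ r = equivocation p C}

/-- `E(δ, p) = limsup (1/n) max equivocation`. -/
noncomputable def E (δ p : ℝ) : ℝ := limsup (fun n : ℕ => maxEquivocation δ p n / n) atTop

/-- `λ(δ, p) = 4 δ p (1 - p) / (2 p (1 - p) - δ (1 - 2 p)²)`. -/
noncomputable def lam (δ p : ℝ) : ℝ :=
  4 * δ * p * (1 - p) / (2 * p * (1 - p) - δ * (1 - 2 * p) ^ 2)

/-- `φ(g) = g + ln ((1 - δ) / δ) √(g / (2 ln 2))`. -/
noncomputable def φ (δ g : ℝ) : ℝ := g + Real.log ((1 - δ) / δ) * √(g / (2 * Real.log 2))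

/-! ### Comparison with the definitions of the helper files -/

open Pool.Agent.Helper89K9 Pool.Agent.Helper84

lemma W_eq (p : ℝ) {n : ℕ} (x y : Fin n → Bool) : W p x y = GV.kern p x y :=
  (GV.kern_eq p x y).symm

lemma minError_eq (p : ℝ) {n : ℕ} (C : Finset (Fin n → Bool)) :
    minError p C = Thresh.optErr p C := by
  unfold minError Thresh.optErr errorProb Thresh.err
  simp only [W_eq]

lemma worst_eq (δ p : ℝ) (n : ℕ) : worst δ p n = Thresh.worst δ p n := by
  unfold worst Thresh.worst
  simp only [minError_eq]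
  rfl

lemma θ_eq (δ : ℝ) : θ δ = Thresh.th δ := by
  unfold θ Thresh.th
  simp only [worst_eq]

lemma equivocation_eq (p : ℝ) {n : ℕ} (C : Finset (Fin n → Bool)) :
    equivocation p C = GV.eqv p C := by
  unfold equivocation GV.eqv GV.pe GV.ex GV.mix
  simp only [W_eq]

lemma maxEquivocation_eq (δ p : ℝ) (n : ℕ) : maxEquivocation δ p n = Thresh.mE δ p n := by
  unfold maxEquivocation Thresh.mE
  simp only [equivocation_eq]
  rfl

lemma E_eq (δ p : ℝ) : E δ p = Thresh.Er δ p := by
  unfold E Thresh.Er
  simp only [maxEquivocation_eq]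

lemma R_eq : R = ConstantWeightCriterion.R := rfl

lemma H_eq : H = ConstantWeightCriterion.H := rfl

lemma lam_eq : lam = Thresh.lam := rfl

lemma J_eq : J = Thresh.Jr := rfl

lemma φ_eq : φ = GV.phi := rfl

/-- **The universal decoding threshold.** -/
theorem result :
    (∀ δ : ℝ, 0 < δ → δ < 1 / 2 →
      -- (1) the dichotomy for two channels, for each length
      (∀ p q : ℝ, 0 < p → p < q → q < 1 / 2 → ∃ c : ℝ, 0 < c ∧ ∀ n : ℕ,
        worst δ p n ≤ 2 * Real.exp (-(c * n)) ∨ 1 - Real.exp (-(c * n)) ≤ worst δ q n) ∧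
      -- (2) the law of zero and one
      ((∀ p : ℝ, 0 < p → p < θ δ →
          ∃ c : ℝ, 0 < c ∧ ∀ᶠ n : ℕ in atTop, worst δ p n ≤ Real.exp (-(c * n))) ∧
        (∀ p : ℝ, θ δ < p → p < 1 / 2 →
          ∃ c : ℝ, 0 < c ∧ ∃ᶠ n : ℕ in atTop, 1 - Real.exp (-(c * n)) ≤ worst δ p n)) ∧
      -- (3) the threshold lies between the radius of Johnson and the distance
      (J δ < θ δ ∧ θ δ ≤ δ) ∧
      -- (4) the curve of the equivocation
      ((∀ p : ℝ, 0 < p → p ≤ θ δ → E δ p = 0) ∧
        (∀ p p' : ℝ, θ δ ≤ p → p ≤ p' → p' ≤ 1 / 2 →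
          (0 < lam δ p ∧ lam δ p ≤ 1) ∧
          lam δ p * (H p' - H p) ≤ E δ p' - E δ p ∧ E δ p' - E δ p ≤ H p' - H p) ∧
        E δ (1 / 2) = R δ) ∧
      -- (5) the rate of the best codes
      (lam δ (θ δ) * (1 - H (θ δ)) ≤ R δ ∧ R δ ≤ 1 - H (θ δ)) ∧
      -- (6) the bound of Gilbert and Varshamov
      (lam δ (θ δ) * (H δ - H (θ δ)) ≤ φ δ (R δ - (1 - H δ)) ∧
        (θ δ = δ ↔ R δ = 1 - H δ))) ∧
    -- (7) the rate near distance `1/2`
    Tendsto (fun δ => R δ / (1 - H (θ δ))) (𝓝[<] (1 / 2)) (𝓝 1) ∧
    -- (8) the threshold near distance `1/2`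
    (∀ η : ℝ, 0 < η → ∀ᶠ ε : ℝ in 𝓝[>] 0,
      1 / 2 - θ (1 / 2 - ε) ≤ (1 + η) * (ε * √(Real.log (1 / ε)))) := by
  refine ⟨fun δ h0 h1 => ?_, ?_, ?_⟩
  · have ht := Thresh.th_pos h0 h1
    have ht2 := Thresh.th_lt_half h0 h1
    simp only [θ_eq, worst_eq, E_eq, R_eq, H_eq, lam_eq, J_eq, φ_eq]
    refine ⟨fun p q hp hpq hq => Thresh.worst_dich hp hpq hq h0,
      ⟨fun p hp hpt => Thresh.below h0 hp hpt, fun p hp hp2 => Thresh.above h0 hp hp2⟩,
      ⟨Thresh.Jr_lt_th h0 h1, Thresh.th_le h0 h1⟩,
      ⟨fun p hp hpt => ?_, fun p p' hp hpp hp' => ?_, Thresh.Er_half δ⟩,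
      Thresh.R_two h0 h1, Thresh.phi_bound h0 h1, Thresh.th_eq_iff h0 h1⟩
    · rcases hpt.eq_or_lt with h | h
      · rw [h]
        exact Thresh.Er_th h0 ht
      · exact Thresh.Er_zero h0 hp h
    · have hJ := Thresh.J_cond h0 h1 hp (hpp.trans hp')
      refine ⟨⟨Thresh.lam_pos h0 (ht.trans_le hp) (hpp.trans hp') hJ, Thresh.lam_le_one h0 hJ⟩,
        ?_, ?_⟩
      · have := Thresh.slope h0 h1 hp hpp hp'
        linarith
      · rcases hpp.eq_or_lt with h | h
        · rw [h]
          simp
        · have := Thresh.Er_up (δ := δ) (ht.trans_le hp) (h.trans_le hp') hpp hp'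
          linarith
  · simp only [θ_eq, R_eq, H_eq]
    exact Thresh.ratio_tendsto
  · intro η hη
    simp only [θ_eq]
    exact Thresh.th_near hη

end Pool.Agent.Results.MP_0430e4_lc.UniversalThreshold
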